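import Pool.Agent.L5helper97.RG.Sets

set_option autoImplicit false

/-!
# Record prime gaps around primitive roots, elements of cosets and integers with prescribed discrete
# logarithms, in every interval of length `p ^ (1/4 + δ)`

Let `p` be a large prime and `f(p) = log p (log₂ p)² log₄ p / (log₃ p)²` the record size of the gaps
between primes near a power of `p` (up to a constant).  Every interval of length `L ≥ p ^ (1/4 + δ)`
(Burgess' range), wherever it is, contains many integers `n` such that all the integers within `κ f(p)`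
of `n` have a prime factor `≤ p ^ δ` and such that `n` is, at our choice,

* a primitive root modulo `p`;
* in a given coset of a subgroup of the multiplicative group whose index is a small power of `p`;
* congruent to a power `g ^ k` with `k` in a given interval of length `p ^ (1 - δ')`, `g` a primitive
  root;
* in any set `T` of residues of density at least `p ^ (-δ')` whose character norm is at most `p ^ δ'`.

Method: the Fourier expansion of `T` in characters, Burgess' bound for the character sums over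
progressions in short intervals of arbitrary position (starting files `Pool.Agent.N647.BU`) and the joint
covering criterion with a count (`Pool.Agent.N647.FG.crit_count`).
-/

namespace Pool.Agent.Results.MP_c853c5_nt.BurgessIntervals

open Finset Filter

/-- the record scale for gaps between primes -/
noncomputable def f (x : ℝ) : ℝ :=
  Real.log x * (Real.log (Real.log x)) ^ 2 * Real.log (Real.log (Real.log (Real.log x))) /
    (Real.log (Real.log (Real.log x))) ^ 2

/-- all the integers at distance at most `κ f(p)` from `n` have a prime factor at most `p ^ δ` -/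
def Centre (κ δ : ℝ) (p : ℕ) (n : ℤ) : Prop :=
  ∀ m : ℤ, |(m : ℝ) - n| ≤ κ * f p → ∃ l : ℕ, l.Prime ∧ (l : ℝ) ≤ (p : ℝ) ^ δ ∧ (l : ℤ) ∣ m

open scoped Classical in
/-- the number of the centres `n` in `(M, M + L]` which satisfy `A` -/
noncomputable def count (κ δ : ℝ) (p : ℕ) (M : ℤ) (L : ℕ) (A : ℤ → Prop) : ℝ :=
  (((Ioc M (M + L)).filter (fun n : ℤ => A n ∧ Centre κ δ p n)).card : ℝ)

/-- the character norm of a set `T` of residues modulo `p`: the sum of the absolute values of the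
coefficients of its indicator function with respect to the characters -/
noncomputable def charNorm (p : ℕ) [Fact p.Prime] (T : Finset (ZMod p)) : ℝ :=
  (1 / ((p : ℝ) - 1)) * ∑ χ : DirichletCharacter ℂ p, ‖∑ a ∈ T, χ a‖

theorem charNorm_eq {p : ℕ} [Fact p.Prime] (T : Finset (ZMod p)) (hT : ∀ a ∈ T, a ≠ 0) :
    Pool.Agent.L5helper97.RG.nrm T = charNorm p T := by
  classical
  have hp2 := (Fact.out : p.Prime).two_le
  unfold Pool.Agent.L5helper97.RG.nrm charNorm Pool.Agent.N647.BU.coef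
  rw [mul_sum]
  refine sum_congr rfl fun χ _ => ?_
  rw [norm_mul, norm_div, norm_one, Complex.norm_natCast, Nat.totient_prime Fact.out]
  have e : ((p - 1 : ℕ) : ℝ) = (p : ℝ) - 1 := by
    rw [Nat.cast_sub (by omega), Nat.cast_one]
  rw [e]
  congr 1
  have h1 : ∑ a ∈ T, χ a⁻¹ = (starRingEnd ℂ) (∑ a ∈ T, χ a) := by
    rw [map_sum]
    refine sum_congr rfl fun a ha => ?_
    have h2 : χ a⁻¹ = (χ a)⁻¹ := by
      have h3 : χ a * χ a⁻¹ = 1 := by rw [← map_mul, mul_inv_cancel₀ (hT a ha), map_one]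
      exact (eq_inv_of_mul_eq_one_right h3)
    have h4 : ‖χ a‖ = 1 := by
      have := DirichletCharacter.unit_norm_eq_one χ (Units.mk0 a (hT a ha))
      simpa using this
    rw [h2, Complex.inv_def, Complex.normSq_eq_norm_sq, h4]
    simp
  rw [h1, Complex.norm_conj]

/-- **Record prime gaps in Burgess' range.** -/
theorem result (δ : ℝ) (hδ : 0 < δ) : ∃ κ : ℝ, 0 < κ ∧ ∃ δ' : ℝ, 0 < δ' ∧ ∃ p₀ : ℕ,
    ∀ (p : ℕ) [Fact p.Prime], p₀ ≤ p →
    ∀ (M : ℤ) (L : ℕ), (p : ℝ) ^ (1 / 4 + δ) ≤ L → L ≤ p →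
    -- primitive roots
    (p : ℝ) ^ (-δ) * L ≤ count κ δ p M L (fun n => orderOf (n : ZMod p) = p - 1) ∧
    -- cosets
    (∀ (G : Subgroup (ZMod p)ˣ) (c : (ZMod p)ˣ), (G.index : ℝ) ≤ (p : ℝ) ^ δ' →
      (p : ℝ) ^ (-δ) * (L / G.index) ≤
        count κ δ p M L (fun n => ∃ h ∈ G, (n : ZMod p) = c * (h : (ZMod p)ˣ))) ∧
    -- discrete logarithms
    (∀ g : ZMod p, orderOf g = p - 1 → ∀ N K : ℕ, (p : ℝ) ^ (1 - δ') ≤ K → K < p →
      (p : ℝ) ^ (-δ) * (L * K / p) ≤
        count κ δ p M L (fun n => ∃ k : ℕ, N < k ∧ k ≤ N + K ∧ (n : ZMod p) = g ^ k)) ∧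
    -- sets with small character norm
    (∀ T : Finset (ZMod p), 0 ∉ T → (p : ℝ) ^ (1 - δ') ≤ T.card → charNorm p T ≤ (p : ℝ) ^ δ' →
      (p : ℝ) ^ (-δ) * (L * T.card / p) ≤ count κ δ p M L (fun n => (n : ZMod p) ∈ T)) := by
  classical
  set δ₁ : ℝ := δ / 2 with hδ₁
  have hδ₁0 : 0 < δ₁ := by positivity
  obtain ⟨κ, hκ, δ', hδ', p₁, h⟩ := Pool.Agent.L5helper97.RG.main δ₁ hδ₁0
  set δ₂ : ℝ := min (δ' / 2) (δ / 4) with hδ₂
  have hδ₂0 : 0 < δ₂ := lt_min (by positivity) (by positivity)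
  have b1 : δ₂ ≤ δ' / 2 := min_le_left _ _
  have b2 : δ₂ ≤ δ / 4 := min_le_right _ _
  obtain ⟨C, hC0, hC⟩ := Pool.Agent.H510R2.divisor_bound (δ₂ / 2) (by positivity)
  have tc : Tendsto (fun q : ℕ => (q : ℝ)) atTop atTop := tendsto_natCast_atTop_atTop
  have hlog : ∀ᶠ x : ℝ in atTop, 2 + Real.log x ≤ x ^ δ' := by
    have h1 := (isLittleO_log_rpow_atTop hδ').def (show (0 : ℝ) < 1 / 2 by norm_num)
    have h2 := (tendsto_rpow_atTop hδ').eventually_ge_atTop 4
    filter_upwards [h1, h2, eventually_ge_atTop (1 : ℝ)] with x h1 h2 h3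
    have h4 := Real.log_nonneg h3
    rw [Real.norm_eq_abs, abs_of_nonneg h4, Real.norm_eq_abs, abs_of_nonneg (by positivity)] at h1
    linarith
  have hev := ((((tc.eventually hlog).and (tc.eventually
    (Pool.Agent.W147.PS.ev_pow (δ₂ / 2) δ₂ (2 * C) (by linarith)))).and (tc.eventually
    (Pool.Agent.W147.PS.ev_pow (-δ) (-(δ₁ + δ₂)) 1 (by linarith)))).and (tc.eventually
    (Pool.Agent.W147.PS.ev_pow (1 - δ') (1 - δ₂) 2 (by linarith)))).and (tc.eventually
    (Pool.Agent.W147.PS.ev_pow (-δ) (-δ₁) 2 (by linarith)))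
  obtain ⟨p₂, hp₂⟩ := eventually_atTop.mp hev
  refine ⟨κ, hκ, δ₂, hδ₂0, max p₁ p₂, ?_⟩
  intro p _ hpp M L hL hLp
  have hp : p.Prime := Fact.out
  have hp2 := hp.two_le
  obtain ⟨⟨⟨⟨g1, g2⟩, g3⟩, g4⟩, g5⟩ := hp₂ p ((le_max_right _ _).trans hpp)
  have hp1 : (1 : ℝ) < p := by exact_mod_cast hp.one_lt
  have hp0 : (0 : ℝ) < p := by linarith
  have hp2R : (2 : ℝ) ≤ p := by exact_mod_cast hp2
  have hmono : ∀ x y : ℝ, x ≤ y → (p : ℝ) ^ x ≤ (p : ℝ) ^ y := fun x y h =>
    Real.rpow_le_rpow_of_exponent_le hp1.le h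
  have hL0 : (0 : ℝ) < L := (Real.rpow_pos_of_pos hp0 _).trans_le hL
  have hL₁ : (p : ℝ) ^ (1 / 4 + δ₁) ≤ L := (hmono _ _ (by linarith)).trans hL
  have hsub : ((p - 1 : ℕ) : ℝ) = (p : ℝ) - 1 := by
    rw [Nat.cast_sub (by omega), Nat.cast_one]
  have key : ∀ T : Finset (ZMod p), (∀ a ∈ T, a ≠ 0) → (p : ℝ) ^ (1 - δ') ≤ T.card →
      Pool.Agent.L5helper97.RG.nrm T ≤ (p : ℝ) ^ δ' →
      ∀ A : ℤ → Prop, (∀ n : ℤ, (n : ZMod p) ∈ T → A n) →
      (p : ℝ) ^ (-δ₁) * (L * T.card / p) ≤ count κ δ p M L A := by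
    intro T hT hTc hTn A hA
    refine (h p ((le_max_left _ _).trans hpp) T hT hTc hTn M L hL₁ hLp).trans ?_
    unfold count
    rw [← Set.ncard_coe_finset]
    refine Nat.cast_le.mpr (Set.ncard_le_ncard ?_ (Finset.finite_toSet _))
    rintro x ⟨h1, h2, h3, h4⟩
    rw [mem_coe, mem_filter, mem_Ioc]
    refine ⟨⟨h1, h2⟩, hA x h3, fun m hm => ?_⟩
    obtain ⟨l, hl, hl2, hl3⟩ := h4 m hm
    exact ⟨l, hl, hl2.trans (hmono _ _ (by linarith)), hl3⟩
  have hle : (p : ℝ) ^ (-δ) ≤ (p : ℝ) ^ (-δ₁) := hmono _ _ (by linarith)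
  refine ⟨?_, ?_, ?_, ?_⟩
  · -- primitive roots
    have h1 := Pool.Agent.L5helper97.RG.prim_nrm (p := p)
    have hd := hC (p - 1) (by omega)
    have hd2 : ((p - 1).divisors.card : ℝ) ≤ C * (p : ℝ) ^ (δ₂ / 2) := by
      refine hd.trans ?_
      apply mul_le_mul_of_nonneg_left _ hC0.le
      apply Real.rpow_le_rpow (by positivity) _ (by positivity)
      exact_mod_cast Nat.sub_le _ _
    have hd0 : (0 : ℝ) < ((p - 1).divisors.card : ℝ) := by
      exact_mod_cast card_pos.mpr ⟨1, Nat.one_mem_divisors.mpr (by omega)⟩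
    have hd3 : 2 * ((p - 1).divisors.card : ℝ) ≤ (p : ℝ) ^ δ₂ := by linarith
    have hc1 : (p : ℝ) ≤ 2 * ((Pool.Agent.L5helper97.RG.prim p).card : ℝ) *
        ((p - 1).divisors.card : ℝ) := by
      rw [Pool.Agent.L5helper97.RG.prim_card]
      have h2 := Pool.Agent.N647.BU.phi_mul_card (p - 1) (by omega)
      have h3 : ((p - 1 : ℕ) : ℝ) ≤ ((p - 1).totient : ℝ) * ((p - 1).divisors.card : ℝ) := by
        exact_mod_cast h2
      rw [hsub] at h3
      linarith
    have hc0 : (0 : ℝ) ≤ ((Pool.Agent.L5helper97.RG.prim p).card : ℝ) := Nat.cast_nonneg _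
    have hc2 : (p : ℝ) ≤ ((Pool.Agent.L5helper97.RG.prim p).card : ℝ) * (p : ℝ) ^ δ₂ := by
      nlinarith
    have hc3 : (p : ℝ) ^ (1 - δ₂) ≤ ((Pool.Agent.L5helper97.RG.prim p).card : ℝ) := by
      rw [Real.rpow_sub hp0, Real.rpow_one, div_le_iff₀ (Real.rpow_pos_of_pos hp0 _)]
      exact hc2
    have h4 := key (Pool.Agent.L5helper97.RG.prim p) (fun a ha =>
      Pool.Agent.L5helper97.RG.prim_ne a ha) ((hmono _ _ (by linarith)).trans hc3)
      (h1.trans ((by linarith : ((p - 1).divisors.card : ℝ) ≤ (p : ℝ) ^ δ₂).trans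
        (hmono _ _ (by linarith))))
      (fun n => orderOf (n : ZMod p) = p - 1)
      (fun n hn => (mem_filter.mp hn).2)
    refine le_trans ?_ h4
    have h5 : (p : ℝ) ^ (-δ₂) ≤ ((Pool.Agent.L5helper97.RG.prim p).card : ℝ) / p := by
      rw [le_div_iff₀ hp0]
      refine le_trans (le_of_eq ?_) hc3
      rw [sub_eq_add_neg, Real.rpow_add hp0, Real.rpow_one, mul_comm]
    calc (p : ℝ) ^ (-δ) * L ≤ (p : ℝ) ^ (-(δ₁ + δ₂)) * L := by
          apply mul_le_mul_of_nonneg_right _ hL0.le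
          linarith
      _ = (p : ℝ) ^ (-δ₁) * (L * (p : ℝ) ^ (-δ₂)) := by
          rw [show -(δ₁ + δ₂) = -δ₁ + -δ₂ by ring, Real.rpow_add hp0]
          ring
      _ ≤ (p : ℝ) ^ (-δ₁) * (L * (((Pool.Agent.L5helper97.RG.prim p).card : ℝ) / p)) := by
          gcongr
      _ = _ := by ring
  · -- cosets
    intro G c hG
    have hi0 : (0 : ℝ) < G.index := by
      exact_mod_cast Nat.pos_of_ne_zero G.index_ne_zero_of_finite
    have h1 : ((Pool.Agent.L5helper97.RG.cos G c).card : ℝ) * G.index = p - 1 := by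
      rw [← hsub]
      exact_mod_cast Pool.Agent.L5helper97.RG.cos_card G c
    have h2 : (p : ℝ) ≤ 2 * ((Pool.Agent.L5helper97.RG.cos G c).card : ℝ) * G.index := by
      nlinarith
    have hc0 : (0 : ℝ) ≤ ((Pool.Agent.L5helper97.RG.cos G c).card : ℝ) := Nat.cast_nonneg _
    have h3 : (p : ℝ) ^ (1 - δ₂) ≤ 2 * ((Pool.Agent.L5helper97.RG.cos G c).card : ℝ) := by
      rw [Real.rpow_sub hp0, Real.rpow_one, div_le_iff₀ (Real.rpow_pos_of_pos hp0 _)]
      refine h2.trans ?_
      gcongr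
    have h4 := key (Pool.Agent.L5helper97.RG.cos G c) (fun a ha =>
      Pool.Agent.L5helper97.RG.cos_ne G c a ha) (by linarith)
      (by
        rw [Pool.Agent.L5helper97.RG.cos_nrm]
        exact Real.one_le_rpow hp1.le hδ'.le)
      (fun n => ∃ h ∈ G, (n : ZMod p) = c * (h : (ZMod p)ˣ))
      (fun n hn => (Pool.Agent.L5helper97.RG.mem_cos G c _).mp hn)
    refine le_trans ?_ h4
    have h5 : (L : ℝ) / G.index ≤ 2 * (L * ((Pool.Agent.L5helper97.RG.cos G c).card : ℝ) / p) := by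
      rw [div_le_iff₀ hi0]
      have : 2 * (L * ((Pool.Agent.L5helper97.RG.cos G c).card : ℝ) / p) * G.index =
          L * ((2 * ((Pool.Agent.L5helper97.RG.cos G c).card : ℝ) * G.index) / p) := by ring
      rw [this]
      have h6 : 1 ≤ (2 * ((Pool.Agent.L5helper97.RG.cos G c).card : ℝ) * G.index) / p := by
        rw [one_le_div hp0]
        exact h2
      nlinarith
    have h7 : 0 ≤ L * ((Pool.Agent.L5helper97.RG.cos G c).card : ℝ) / p := by positivity
    calc (p : ℝ) ^ (-δ) * (L / G.index) ≤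
        (p : ℝ) ^ (-δ) * (2 * (L * ((Pool.Agent.L5helper97.RG.cos G c).card : ℝ) / p)) := by
          gcongr
      _ = 2 * (p : ℝ) ^ (-δ) * (L * ((Pool.Agent.L5helper97.RG.cos G c).card : ℝ) / p) := by ring
      _ ≤ _ := mul_le_mul_of_nonneg_right g5 h7
  · -- discrete logarithms
    intro g hg N K hK hKp
    have hK1 : K ≤ p - 1 := by omega
    have h1 := Pool.Agent.L5helper97.RG.dl_card hg N K hK1
    have h4 := key (Pool.Agent.L5helper97.RG.dl g N K) (fun a ha =>
      Pool.Agent.L5helper97.RG.dl_ne hg N K a ha)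
      (by
        rw [h1]
        exact (hmono _ _ (by linarith)).trans hK)
      ((Pool.Agent.L5helper97.RG.dl_nrm hg N K hK1).trans g1)
      (fun n => ∃ k : ℕ, N < k ∧ k ≤ N + K ∧ (n : ZMod p) = g ^ k)
      (fun n hn => by
        obtain ⟨k, hk, hk2⟩ := mem_image.mp hn
        rw [mem_Ioc] at hk
        exact ⟨k, hk.1, hk.2, hk2.symm⟩)
    rw [h1] at h4
    refine le_trans ?_ h4
    gcongr
  · intro T hT hTc hTn
    have hT' : ∀ a ∈ T, a ≠ 0 := fun a ha h0 => hT (h0 ▸ ha)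
    have h4 := key T hT' ((hmono _ _ (by linarith)).trans hTc)
      (by
        rw [charNorm_eq T hT']
        exact hTn.trans (hmono _ _ (by linarith)))
      (fun n => (n : ZMod p) ∈ T) (fun n hn => hn)
    refine le_trans ?_ h4
    gcongr

end Pool.Agent.Results.MP_c853c5_nt.BurgessIntervals
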