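import Pool.Agent.L5helper45.OS.OMain

set_option autoImplicit false

/-! # Prime-free intervals of record length around integers with prescribed Ostrowski sums of digits

Let `a_0, a_1, … ≥ 1` be the partial quotients of an irrational number `α` and
`q_0 = 1, q_1 = a_0, q_(k+2) = a_(k+1) q_(k+1) + q_k` the denominators of its convergents.  Every
integer `n ≥ 0` is a sum `∑ d_i q_i` with `d_0 < a_0`, `d_i ≤ a_i` and `d_i = 0` if
`d_(i+1) = a_(i+1)`, in exactly one way (Ostrowski; for `a_i = 1` this is the Zeckendorf expansion).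

Let `m, m₁ ≥ 1` and `ε > 0`.  Suppose that the `k`-th root of `q_k` is bounded and that for every
prime divisor `p` of `m` a positive proportion of the indices `i` have `a_i, …, a_(i+3) ≤ K` and
`a_(i+2)` prime to `p`.  Then for all large `M` and all residue classes `x` modulo `m`, `r` modulo
`m₁` there is an integer `n` in `(M, M + M ^ ε]`, `n ≡ r` modulo `m₁`, whose sum of digits in
Ostrowski's expansion is `≡ x` modulo `m`, without primes within
`κ log M (log₂ M)² log₄ M / (log₃ M)²` of `n`.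

(The hypotheses hold for the Zeckendorf expansion and every `m`; by the ergodic theorem, which is
not needed here, they hold for almost all `α`.)

Proof: the exponential sums `T_k = ∑_{n < q_k} ω ^ s(n) e(n θ)` satisfy a linear recursion of order
two, in which four consecutive steps with small partial quotients decrease `|T_k| / q_k` by a fixed
factor, uniformly in `θ` and in the past (compactness): equality forces `ω e(q_k θ) = 1` for three
consecutive `k`, hence `ω ^ a = 1` for the partial quotient `a` in the middle.  The covering sieve is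
that of `MP_3bc45c_nt.RecordGaps` (in the form of `TH915/PW/Crit.lean`), dilated by `m₁`. -/

namespace Pool.Agent.Results.MP_c853c5_nt.OstrowskiDigitSums

open Filter

theorem result (a q : ℕ → ℕ) (ha : ∀ k, 1 ≤ a k) (hq0 : q 0 = 1) (hq1 : q 1 = a 0)
    (hq : ∀ k, q (k + 2) = a (k + 1) * q (k + 1) + q k) (m m₁ : ℕ) (hm : 1 ≤ m) (hm₁ : 1 ≤ m₁)
    (K : ℕ) (C c : ℝ) (hc : 0 < c) (hC : ∀ᶠ k : ℕ in atTop, (q k : ℝ) ≤ C ^ k)
    (hg : ∀ p : ℕ, p.Prime → p ∣ m → ∀ᶠ k : ℕ in atTop, c * k ≤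
      ((Finset.range k).filter (fun i => (∀ j < 4, a (i + j) ≤ K) ∧ ¬ p ∣ a (i + 2))).card)
    (ε : ℝ) (hε : 0 < ε) :
    ∃ κ : ℝ, 0 < κ ∧ ∃ M₀ : ℝ, ∀ M : ℝ, M₀ ≤ M → ∀ x r : ℕ,
      ∃ (n L : ℕ) (d : ℕ → ℕ), d 0 < a 0 ∧ (∀ i, d i ≤ a i) ∧
        (∀ i, d (i + 1) = a (i + 1) → d i = 0) ∧ (∀ i, L ≤ i → d i = 0) ∧
        n = ∑ i ∈ Finset.range L, d i * q i ∧ ∑ i ∈ Finset.range L, d i ≡ x [MOD m] ∧
        n ≡ r [MOD m₁] ∧ M < n ∧ (n : ℝ) ≤ M + M ^ ε ∧ ∀ p : ℕ, p.Prime →
        κ * (Real.log M * (Real.log (Real.log M)) ^ 2 *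
          Real.log (Real.log (Real.log (Real.log M))) / (Real.log (Real.log (Real.log M))) ^ 2) <
            |(p : ℝ) - n| := by
  have hC' : ∀ᶠ k : ℕ in atTop, (q k : ℝ) ≤ (max |C| 2) ^ k := by
    filter_upwards [hC] with k hk
    calc (q k : ℝ) ≤ C ^ k := hk
      _ ≤ |C ^ k| := le_abs_self _
      _ = |C| ^ k := abs_pow _ _
      _ ≤ _ := pow_le_pow_left₀ (abs_nonneg _) (le_max_left _ _) k
  obtain ⟨κ, hκ, h⟩ := Pool.Agent.L5helper45.OS.ost_main ha hq0 hq1 hq m m₁ hm hm₁ K (max |C| 2) c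
    hc (lt_of_lt_of_le one_lt_two (le_max_right _ _)) hC' hg (min ε 1) (by positivity)
    (min_le_right _ _)
  obtain ⟨M₀, hM₀⟩ := eventually_atTop.1 h
  refine ⟨κ, hκ, max M₀ 1, fun M hM x r => ?_⟩
  obtain ⟨n, h1, h2, h3, h4, h5⟩ := hM₀ M ((le_max_left _ _).trans hM) x r
  have hn : n < q (n + 1) := by
    have := Pool.Agent.L5helper45.OS.le_q ha hq0 hq1 hq (n + 1)
    omega
  obtain ⟨d, d1, d2, d3, d4, d5, d6⟩ :=
    Pool.Agent.L5helper45.OS.digits ha hq0 hq1 hq (n + 1) n hn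
  refine ⟨n, n + 1, d, d2, d3, d4, d1, d5, ?_, h3, h1, h2.trans ?_, h5⟩
  · rw [← d6]
    exact h4
  · have : M ^ (min ε 1) ≤ M ^ ε :=
      Real.rpow_le_rpow_of_exponent_le ((le_max_right _ _).trans hM) (min_le_left _ _)
    linarith

end Pool.Agent.Results.MP_c853c5_nt.OstrowskiDigitSums
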