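import Pool.Agent.L5helper1.PS.Main
import Pool.Agent.N542.PB.GenPoly

set_option autoImplicit false

/-!
# Record prime gaps on which the sequences `⌊m ^ c⌋` have no prime term, for several `c > 1` at once

Let `c_1, …, c_r > 1` be real numbers, not integers, no two of them congruent modulo one. There are gaps
between primes of the record length `κ log Z (log₂ Z)² log₄ Z / (log₃ Z)²` such that for EVERY integer `m` of the
gap all the numbers `⌊m ^ (c_j)⌋` are composite too: the sequences of Piatetski-Shapiro with the exponents `c_j`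
have at the same time no prime term on the gap. (The average distance of the `m` with a prime `⌊m ^ c⌋`
is expected to be `c log m`.) We show this for at least `Z ^ (1 - ε)` integers `n` of `(Z, (1 + ε) Z]` in the
place of the centre of the gap, for all smoothly varying functions `f_j` instead of `t ^ (c_j)`, uniformly
in multipliers `α_j` and for arbitrary real polynomials added, and in the stronger form that all these numbers are
divisible by a prime `p ≤ Z ^ ε`.

Precisely, let the `f_j` be smoothly varying (Bingham, Goldie, Teugels) with real indices `c_j ∉ {0, 1, 2, …}` (for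
instance `t ^ (c_j)` plus a combination of lower real powers), and let `u_j` be real numbers, such that
the `v_j = c_j + u_j > 1` are not integers and are incongruent modulo one. Let `0 < ε ≤ 1 / 2`. There are
`κ, δ > 0` such that for all large `Z`, for ALL real `α_j` with `Z ^ (u_j - δ) ≤ |α_j| ≤ Z ^ (u_j + δ)` and
ALL real polynomials `P_j` of degree less than `v_j`, at least `Z ^ (1 - ε)` integers `n` of `(Z, (1 + ε) Z]`
are such that all the integers `m` at a distance of at most `κ log Z (log₂ Z)² log₄ Z / (log₃ Z)²` from `n`,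
and all the integers `⌊α_j f_j(m) + P_j(m)⌋`, `1 ≤ j ≤ r`, are divisible by a prime `p ≤ Z ^ ε` each; in
particular the `m` are not primes, and neither are the `⌊α_j f_j(m) + P_j(m)⌋` greater than `Z ^ ε`.

Proof (`Pool.Agent.L5helper1.PS`). Let `d_j = ⌊v_j⌋`. By Newton's formula the values of
`F_j = α_j f_j + P_j` at the `n + k` are given by the `d_j + 1` differences `Δ^l F_j(n)`, `l ≤ d_j`, up to `o(1)`; if
the fractional parts of these differences are close to `1 / 2` (`l = 0`) and to `0` (`l ≥ 1`) then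
`⌊F_j(n + k)⌋ = ∑_l C(k, l) ⌊Δ^l F_j(n)⌋`. The vector of `n` and all the `⌊Δ^l F_j(n)⌋` is well distributed in the
residue classes modulo `q ≤ Z ^ δ`, together with the fractional parts (van der Corput's method). For the primes up
to `log X / 10` the residues are chosen such that all the forms in `k` are congruent to `r + k`, so that the same `k`
are left over by the sieve for all the sequences; the record covering of helper256 and helper961
(`Pool.Agent.Y961.JR.coverAbs`) is applied to the pairs of a sequence and a `k` that is left over.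
-/

namespace Pool.Agent.Results.MP_c853c5_nt.PiatetskiShapiroFreeGaps

open Finset Filter Topology

/-- the record function `log x (log₂ x)² log₄ x / (log₃ x)²` -/
noncomputable def R (x : ℝ) : ℝ :=
  Real.log x * (Real.log (Real.log x)) ^ 2 * Real.log (Real.log (Real.log (Real.log x))) /
    (Real.log (Real.log (Real.log x))) ^ 2

/-- `f` is smoothly varying with index `c`: it is positive and has derivatives of every order near
infinity, and `t ^ j f⁽ʲ⁾(t) / f(t)` tends to `c (c - 1) ⋯ (c - j + 1)` for every `j`. -/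
def SmoothlyVarying (c : ℝ) (f : ℝ → ℝ) : Prop :=
  (∀ᶠ t in atTop, 0 < f t) ∧
  (∀ j : ℕ, ∀ᶠ t in atTop, DifferentiableAt ℝ (iteratedDeriv j f) t) ∧
  ∀ j : ℕ, Tendsto (fun t => t ^ j * iteratedDeriv j f t / f t) atTop
    (𝓝 (∏ i ∈ range j, (c - i)))

/-- The main theorem. -/
theorem result (r : ℕ) (hr : 1 ≤ r) (c u : Fin r → ℝ) (f : Fin r → ℝ → ℝ)
    (hcn : ∀ j, ∀ n : ℕ, c j ≠ n) (hf : ∀ j, SmoothlyVarying (c j) (f j))
    (hv : ∀ j, 1 < c j + u j) (hvn : ∀ j, ∀ n : ℕ, c j + u j ≠ n)
    (hinc : ∀ i j, i ≠ j → ∀ n : ℤ, (c i + u i) - (c j + u j) ≠ n)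
    (ε : ℝ) (hε : 0 < ε) (hε1 : ε ≤ 1 / 2) :
    ∃ κ δ : ℝ, 0 < κ ∧ 0 < δ ∧ ∀ᶠ Z : ℝ in atTop, ∀ (α : Fin r → ℝ) (P : Fin r → Polynomial ℝ),
      (∀ j, Z ^ (u j - δ) ≤ |α j| ∧ |α j| ≤ Z ^ (u j + δ)) →
      (∀ j, ((P j).natDegree : ℝ) < c j + u j) →
      ∃ G : Finset ℕ, Z ^ (1 - ε) ≤ (G.card : ℝ) ∧ ∀ n ∈ G, Z < n ∧ (n : ℝ) ≤ (1 + ε) * Z ∧
        ∀ m : ℕ, |(m : ℝ) - n| ≤ κ * R Z →
          (∃ p : ℕ, p.Prime ∧ (p : ℝ) ≤ Z ^ ε ∧ p ∣ m) ∧
          ∀ j, ∃ p : ℕ, p.Prime ∧ (p : ℝ) ≤ Z ^ ε ∧
            (p : ℤ) ∣ ⌊α j * f j m + (P j).eval (m : ℝ)⌋ := by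
  have hSV : ∀ j, Pool.Agent.N542.PP.SV (c j) (fun k => iteratedDeriv k (f j)) := by
    intro j
    refine ⟨?_, ?_, ?_⟩
    · simpa only [iteratedDeriv_zero] using (hf j).1
    · intro k
      filter_upwards [(hf j).2.1 k] with t ht
      rw [iteratedDeriv_succ]
      exact ht.hasDerivAt
    · intro k
      have h1 := (hf j).2.2 k
      rw [Pool.Agent.N542.PP.fall]
      simpa only [iteratedDeriv_zero] using h1
  have h := Pool.Agent.L5helper1.PS.main_PS hr c u (fun j k => iteratedDeriv k (f j)) hSV hcn hv hvn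
    hinc ε hε hε1
  simp only [iteratedDeriv_zero] at h
  exact h

/-- `t ^ c` plus a combination of lower real powers is smoothly varying with index `c`. -/
theorem smoothlyVarying_genPoly (c : ℝ) (n : ℕ) (a b : Fin n → ℝ) (hb : ∀ i, b i < c) :
    SmoothlyVarying c (fun t => t ^ c + ∑ i, a i * t ^ b i) :=
  Pool.Agent.N542.PB.genPoly_sv c n a b hb

end Pool.Agent.Results.MP_c853c5_nt.PiatetskiShapiroFreeGaps
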