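import Pool.Agent.L5helper16.SC.A

set_option autoImplicit false

/-!
# Record prime gaps on short arcs of smooth curves, uniformly in the curve

`f(x) = log x (log₂ x)² log₄ x / (log₃ x)²` is the record size of the prime-free intervals (library). The library theorems
`Pool.Agent.TH668.Sm.uniform_main` and `power_poly` give one value far from all primes on a curve of length `M`; here there
is one on EVERY arc of length `M ^ (1 - η)`, with the same bounds for the curve.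
-/

namespace Pool.Agent.Results.MP_c853c5_nt.UniformSmoothCurves

/-- The record scale `f(x) = log x (log₂ x)² log₄ x / (log₃ x)²` (iterated natural logarithms). -/
noncomputable def f (x : ℝ) : ℝ :=
  Real.log x * (Real.log (Real.log x)) ^ 2 * Real.log (Real.log (Real.log (Real.log x))) /
    (Real.log (Real.log (Real.log x))) ^ 2

/-- All primes are at a distance greater than `r` from the real number `y`. -/
def Isolated (r y : ℝ) : Prop := ∀ q : ℕ, q.Prime → r < |(q : ℝ) - y|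

/-- On the interval `[A, B]` the function `φ 0` has the derivatives `φ 1, ..., φ (k + 2)`; the derivative of order `k + 1`
is monotone, has a constant sign and absolute values between `lo` and `hi`. -/
structure Curve (k : ℕ) (A B lo hi : ℝ) (φ : ℕ → ℝ → ℝ) : Prop where
  der : ∀ m ≤ k + 1, ∀ t ∈ Set.Icc A B, HasDerivAt (φ m) (φ (m + 1) t) t
  bounds : (∀ t ∈ Set.Icc A B, lo ≤ φ (k + 1) t ∧ φ (k + 1) t ≤ hi) ∨
    (∀ t ∈ Set.Icc A B, lo ≤ -φ (k + 1) t ∧ -φ (k + 1) t ≤ hi)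
  mono : (∀ t ∈ Set.Icc A B, 0 ≤ φ (k + 2) t) ∨ (∀ t ∈ Set.Icc A B, φ (k + 2) t ≤ 0)

/-- (1) Let `k ≥ 0` and `0 < ε ≤ 1 / 2`. There are `κ > 0` and `M₀` such that for all `M ≥ M₀`, all lengths `H` with
`M ^ (1 - ε / 2) ≤ H ≤ M`, all real `A` and all functions `φ 0 ≥ M ^ ε` on `[A, A + H]` whose derivative of order `k + 1`
is monotone, has a constant sign and absolute values between `M ^ (ε - 1)` and `M ^ (-ε)`, there is an integer `0 ≤ n ≤ H`
such that all primes are at a distance greater than `κ f(M)` from the value `φ 0 (A + n)`.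

(2) Let `c > 0` be a real number which is not an integer. There are `κ, δ, η > 0` and `M₀` such that for all `M ≥ M₀`, all
real `α` with `M ^ (-δ) ≤ |α| ≤ M ^ δ` and ALL real polynomials `P` of degree less than `c` for which
`α t ^ c + P(t) ≥ M ^ δ` on `[M, 3 M]`, every interval `[B, B + M ^ (1 - η)]` inside `[M, 3 M]` contains an integer `n` such
that all primes are at a distance greater than `κ f(M)` from `α n ^ c + P(n)`. -/
theorem result :
    (∀ (k : ℕ) (ε : ℝ), 0 < ε → ε ≤ 1 / 2 → ∃ κ : ℝ, 0 < κ ∧ ∃ M₀ : ℝ, ∀ M : ℝ, M₀ ≤ M →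
      ∀ H : ℝ, M ^ (1 - ε / 2) ≤ H → H ≤ M →
      ∀ (A : ℝ) (φ : ℕ → ℝ → ℝ), Curve k A (A + H) (M ^ (ε - 1)) (M ^ (-ε)) φ →
      (∀ t ∈ Set.Icc A (A + H), M ^ ε ≤ φ 0 t) →
      ∃ n : ℕ, (n : ℝ) ≤ H ∧ Isolated (κ * f M) (φ 0 (A + n))) ∧
    (∀ c : ℝ, 0 < c → (∀ m : ℕ, c ≠ m) → ∃ κ : ℝ, 0 < κ ∧ ∃ δ : ℝ, 0 < δ ∧ ∃ η : ℝ, 0 < η ∧
      ∃ M₀ : ℝ, ∀ M : ℝ, M₀ ≤ M →
      ∀ (α : ℝ) (P : Polynomial ℝ), M ^ (-δ) ≤ |α| → |α| ≤ M ^ δ → (P.natDegree : ℝ) < c →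
      (∀ t ∈ Set.Icc M (3 * M), M ^ δ ≤ α * t ^ c + P.eval t) →
      ∀ B : ℝ, M ≤ B → B + M ^ (1 - η) ≤ 3 * M →
      ∃ n : ℕ, B ≤ n ∧ (n : ℝ) ≤ B + M ^ (1 - η) ∧ Isolated (κ * f M) (α * (n : ℝ) ^ c + P.eval (n : ℝ))) := by
  refine ⟨?_, fun c hc hcn => Pool.Agent.L5helper16.SC.short_poly c hc hcn⟩
  intro k ε hε hε2
  obtain ⟨κ, hκ, M₀, h⟩ := Pool.Agent.L5helper16.SC.short_main k ε hε hε2
  refine ⟨κ, hκ, M₀, ?_⟩
  intro M hM H hH1 hH2 A φ hφ hpos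
  obtain ⟨s, hs, h1⟩ : ∃ s : ℝ, (s = 1 ∨ s = -1) ∧ ∀ t ∈ Set.Icc A (A + H),
      M ^ (ε - 1) ≤ s * φ (k + 1) t ∧ s * φ (k + 1) t ≤ M ^ (-ε) := by
    rcases hφ.bounds with h1 | h1
    · exact ⟨1, Or.inl rfl, fun t ht => by simpa using h1 t ht⟩
    · exact ⟨-1, Or.inr rfl, fun t ht => by simpa using h1 t ht⟩
  obtain ⟨s', hs', h2⟩ : ∃ s' : ℝ, (s' = 1 ∨ s' = -1) ∧ ∀ t ∈ Set.Icc A (A + H), 0 ≤ s' * φ (k + 2) t := by
    rcases hφ.mono with h1 | h1
    · exact ⟨1, Or.inl rfl, fun t ht => by simpa using h1 t ht⟩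
    · exact ⟨-1, Or.inr rfl, fun t ht => by simpa using h1 t ht⟩
  exact h M hM H hH1 hH2 A s s' φ hs hs' ⟨hφ.der, fun t ht => (h1 t ht).1, fun t ht => (h1 t ht).2, h2⟩ hpos

end Pool.Agent.Results.MP_c853c5_nt.UniformSmoothCurves
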